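import Pool.Agent.MP_ca0a54_nt.H24.Spec
import Pool.Agent.MP_ca0a54_nt.L0.Residue

/-!
Row SC: Cauchy's theorem on strips and the kernel.
-/

open Complex MeasureTheory Filter Topology

namespace Pool.Agent.MP_ca0a54_nt.H91

open Pool.Agent.MP_ca0a54_nt.H24 Pool.Agent.MP_ca0a54_nt.L0

theorem gauss_int {F : ℝ → ℂ} (hc : Continuous F) {M t : ℝ}
    (hb : ∀ x, ‖F x‖ ≤ M * Real.exp (-(x - t) ^ 2 / 2)) : Integrable F := by
  have h0 : Integrable fun x : ℝ => Real.exp (-(1 / 2 : ℝ) * x ^ 2) :=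
    integrable_exp_neg_mul_sq (by norm_num)
  have h1 := (h0.comp_sub_right t).const_mul M
  refine h1.mono' hc.aestronglyMeasurable (Eventually.of_forall fun x => ?_)
  refine (hb x).trans (le_of_eq ?_)
  congr 2
  ring

theorem line_cont {H : ℂ → ℂ} {γ₁ γ₂ γ : ℝ} (h₁ : γ₁ ≤ γ) (h₂ : γ ≤ γ₂)
    (hH : DifferentiableOn ℂ H {z | γ₁ ≤ z.im ∧ z.im ≤ γ₂}) :
    Continuous fun x : ℝ => H (x + γ * I) := by
  refine hH.continuousOn.comp_continuous (f := fun x : ℝ => (x : ℂ) + γ * I) (by fun_prop) ?_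
  intro x
  simp [h₁, h₂]

theorem vert_small {G : ℂ → ℂ} {γ₁ γ₂ : ℝ} (hγ : γ₁ ≤ γ₂) {x b : ℝ → ℝ}
    (hb : Tendsto b atTop (𝓝 0))
    (h : ∀ᶠ X in atTop, ∀ y : ℝ, γ₁ ≤ y → y ≤ γ₂ → ‖G (x X + y * I)‖ ≤ b X) :
    Tendsto (fun X => ∫ y in γ₁..γ₂, G (x X + y * I)) atTop (𝓝 0) := by
  have h2 : Tendsto (fun X => b X * |γ₂ - γ₁|) atTop (𝓝 0) := by
    simpa using hb.mul_const |γ₂ - γ₁|
  refine squeeze_zero_norm' ?_ h2
  filter_upwards [h] with X hX
  refine intervalIntegral.norm_integral_le_of_norm_le_const fun y hy => ?_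
  rw [Set.uIoc_of_le hγ] at hy
  exact hX y hy.1.le hy.2

theorem diff_tendsto {G : ℂ → ℂ} {γ₁ γ₂ t : ℝ} (hγ : γ₁ ≤ γ₂) {b : ℝ → ℝ}
    (hG : DifferentiableOn ℂ G {z | γ₁ ≤ z.im ∧ z.im ≤ γ₂}) (hb : Tendsto b atTop (𝓝 0))
    (h : ∀ᶠ X in atTop, ∀ z : ℂ, γ₁ ≤ z.im → z.im ≤ γ₂ → |z.re - t| = X → ‖G z‖ ≤ b X) :
    Tendsto (fun X : ℝ => (∫ x in (t - X)..(t + X), G (x + γ₁ * I)) -
      ∫ x in (t - X)..(t + X), G (x + γ₂ * I)) atTop (𝓝 0) := by
  have hr : Tendsto (fun X : ℝ => ∫ y in γ₁..γ₂, G ((t + X : ℝ) + y * I)) atTop (𝓝 0) := by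
    refine vert_small hγ (x := fun X => t + X) hb ?_
    filter_upwards [h, eventually_ge_atTop 0] with X hX h0 y h1 h2
    exact hX _ (by simpa using h1) (by simpa using h2) (by simpa using h0)
  have hl : Tendsto (fun X : ℝ => ∫ y in γ₁..γ₂, G ((t - X : ℝ) + y * I)) atTop (𝓝 0) := by
    refine vert_small hγ (x := fun X => t - X) hb ?_
    filter_upwards [h, eventually_ge_atTop 0] with X hX h0 y h1 h2
    exact hX _ (by simpa using h1) (by simpa using h2) (by simpa using h0)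
  have h3 := (hl.const_mul I).sub (hr.const_mul I)
  rw [mul_zero, sub_zero] at h3
  refine h3.congr fun X => ?_
  have h4 := integral_boundary_rect_eq_zero_of_differentiableOn G ⟨t - X, γ₁⟩ ⟨t + X, γ₂⟩
    (hG.mono fun z hz => by
      have := hz.2
      simp only [Set.mem_preimage, Set.uIcc_of_le hγ] at this
      exact this)
  simp only [smul_eq_mul] at h4
  linear_combination -h4

theorem sym_tendsto {F : ℝ → ℂ} (hF : Integrable F) (t : ℝ) :
    Tendsto (fun X : ℝ => ∫ x in (t - X)..(t + X), F x) atTop (𝓝 (∫ x, F x)) :=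
  intervalIntegral_tendsto_integral hF
    (tendsto_atBot_add_const_left _ t tendsto_neg_atTop_atBot)
    (tendsto_atTop_add_const_left _ t tendsto_id)

theorem shift : ShiftStmt := by
  intro H γ₁ γ₂ M t hγ hH hb
  have i1 : Integrable fun x : ℝ => H (x + γ₁ * I) :=
    gauss_int (line_cont le_rfl hγ hH) (M := M) (t := t) fun x => by
      simpa using hb (x + γ₁ * I) (by simp) (by simpa using hγ)
  have i2 : Integrable fun x : ℝ => H (x + γ₂ * I) :=
    gauss_int (line_cont hγ le_rfl hH) (M := M) (t := t) fun x => by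
      simpa using hb (x + γ₂ * I) (by simpa using hγ) (by simp)
  have hb0 : Tendsto (fun X : ℝ => M * Real.exp (-X ^ 2 / 2)) atTop (𝓝 0) := by
    have : Tendsto (fun X : ℝ => -X ^ 2 / 2) atTop atBot :=
      (tendsto_neg_atTop_atBot.comp (tendsto_pow_atTop two_ne_zero)).atBot_div_const two_pos
    simpa using (Real.tendsto_exp_atBot.comp this).const_mul M
  have h1 := diff_tendsto (t := t) hγ hH hb0 (Eventually.of_forall fun X z h1 h2 h3 => by
    have := hb z h1 h2
    rwa [← sq_abs, h3] at this)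
  exact sub_eq_zero.mp (tendsto_nhds_unique ((sym_tendsto i1 t).sub (sym_tendsto i2 t)) h1)

theorem log_diff (c c' : ℂ) :
    Tendsto (fun s : ℝ => log (s + c) - log (s + c')) atTop (𝓝 0) := by
  have key : ∀ d : ℂ, Tendsto (fun s : ℝ => log (1 + d * (s⁻¹ : ℝ))) atTop (𝓝 0) := by
    intro d
    have h1 : Tendsto (fun s : ℝ => (1 : ℂ) + d * (s⁻¹ : ℝ)) atTop (𝓝 (1 + d * (0 : ℝ))) :=
      (((continuous_ofReal.tendsto 0).comp tendsto_inv_atTop_zero).const_mul d).const_add 1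
    rw [ofReal_zero, mul_zero, add_zero] at h1
    simpa using h1.clog one_mem_slitPlane
  have key2 : ∀ d : ℂ, ∀ᶠ s : ℝ in atTop,
      log (s + d) = Real.log s + log (1 + d * (s⁻¹ : ℝ)) := by
    intro d
    filter_upwards [eventually_gt_atTop 0, eventually_gt_atTop ‖d‖] with s h0 h1
    have hs : (s : ℂ) ≠ 0 := ofReal_ne_zero.mpr h0.ne'
    have e : (s : ℂ) + d = s * (1 + d * (s⁻¹ : ℝ)) := by
      push_cast
      field_simp
    have hne : (s : ℂ) + d ≠ 0 := by
      intro h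
      have : d = -(s : ℂ) := by linear_combination h
      rw [this, norm_neg, norm_real, Real.norm_eq_abs, abs_of_pos h0] at h1
      exact lt_irrefl _ h1
    rw [e] at hne ⊢
    exact log_ofReal_mul h0 (right_ne_zero_of_mul hne)
  have h := (key c).sub (key c')
  rw [sub_zero] at h
  refine h.congr' ?_
  filter_upwards [key2 c, key2 c'] with s h1 h2
  rw [h1, h2]
  ring

theorem inv_tendsto {c c' : ℂ} (hc : c.im < 0) (hc' : 0 < c'.im) (t : ℝ) :
    Tendsto (fun X : ℝ => (∫ x in (t - X)..(t + X), ((x : ℂ) + c)⁻¹) -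
      ∫ x in (t - X)..(t + X), ((x : ℂ) + c')⁻¹) atTop (𝓝 (2 * Real.pi * I)) := by
  have h := ((log_diff (t + c) (t + c')).add (log_diff (-(t + c')) (-(t + c)))).add_const
    (2 * Real.pi * I)
  rw [add_zero, zero_add] at h
  refine h.congr fun X => ?_
  rw [Residue.horiz c hc.ne, Residue.horiz c' hc'.ne']
  have e1 := Residue.log_neg_of_im_neg (z := (t - X : ℝ) + c) (by simpa using hc)
  have e2 := Residue.log_neg_of_im_pos (z := (t - X : ℝ) + c') (by simpa using hc')
  have f1 : (X : ℂ) + (t + c) = (t + X : ℝ) + c := by push_cast; ring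
  have f2 : (X : ℂ) + (t + c') = (t + X : ℝ) + c' := by push_cast; ring
  have f3 : (X : ℂ) + -(t + c) = -((t - X : ℝ) + c) := by push_cast; ring
  have f4 : (X : ℂ) + -(t + c') = -((t - X : ℝ) + c') := by push_cast; ring
  rw [f1, f2, f3, f4, e1, e2]
  ring

theorem pole : PoleStmt := by
  intro H γ₁ γ₂ M t v h₁ h₂ hH hb
  have hγ : γ₁ ≤ γ₂ := (h₁.trans h₂).le
  have hn : {z : ℂ | γ₁ ≤ z.im ∧ z.im ≤ γ₂} ∈ 𝓝 v :=
    continuous_im.continuousAt.preimage_mem_nhds (Icc_mem_nhds h₁ h₂)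
  have hG := (differentiableOn_dslope hn).mpr hH
  have hne : ∀ (γ x : ℝ), γ ≠ v.im → (x : ℂ) + γ * I - v ≠ 0 := fun γ x hγ h => by
    have := congrArg im h
    simp only [sub_im, add_im, ofReal_im, mul_im, ofReal_re, I_im, mul_one, I_re, mul_zero,
      add_zero, zero_add, zero_im] at this
    exact hγ (by linarith)
  have hint : ∀ γ : ℝ, γ₁ ≤ γ → γ ≤ γ₂ → γ ≠ v.im →
      Integrable fun x : ℝ => H (x + γ * I) / (x + γ * I - v) := by
    intro γ g1 g2 g3
    refine gauss_int ((line_cont g1 g2 hH).div (by fun_prop) fun x => hne γ x g3)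
      (M := M / |γ - v.im|) (t := t) fun x => ?_
    have a1 := hb (x + γ * I) (by simpa using g1) (by simpa using g2)
    have a2 : |γ - v.im| ≤ ‖(x : ℂ) + γ * I - v‖ := by
      simpa using abs_im_le_norm ((x : ℂ) + γ * I - v)
    have a3 : 0 < |γ - v.im| := abs_pos.mpr (sub_ne_zero.mpr g3)
    rw [norm_div, div_mul_eq_mul_div]
    refine div_le_div₀ ((norm_nonneg _).trans (by simpa using a1)) (by simpa using a1) a3 a2
  have hb0 : Tendsto (fun X : ℝ => (|M| + ‖H v‖) / (X - |v.re - t|)) atTop (𝓝 0) :=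
    tendsto_const_nhds.div_atTop (tendsto_atTop_add_const_right _ _ tendsto_id)
  have h1 := diff_tendsto (t := t) hγ hG hb0 (by
    filter_upwards [eventually_gt_atTop |v.re - t|] with X hX z z1 z2 z3
    have b1 : X - |v.re - t| ≤ ‖z - v‖ := by
      have := abs_re_le_norm (z - v)
      rw [sub_re] at this
      have h5 := abs_sub_le z.re v.re t
      linarith
    have b2 : z ≠ v := fun h => by
      rw [h, sub_self, norm_zero] at b1
      linarith
    have b3 : ‖H z‖ ≤ |M| := by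
      refine (hb z z1 z2).trans ((le_abs_self _).trans ?_)
      rw [abs_mul, abs_of_pos (Real.exp_pos _)]
      refine mul_le_of_le_one_right (abs_nonneg _) (Real.exp_le_one_iff.mpr ?_)
      have := sq_nonneg (z.re - t)
      linarith
    rw [dslope_of_ne _ b2, slope_def_field, norm_div]
    refine div_le_div₀ (by positivity) ((norm_sub_le _ _).trans (by linarith)) (by linarith) b1)
  have h2 := (inv_tendsto (c := γ₁ * I - v) (c' := γ₂ * I - v) (by simpa using h₁)
    (by simpa using h₂) t).const_mul (H v)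
  have h3 := h1.add h2
  have split : ∀ (γ a b : ℝ), γ₁ ≤ γ → γ ≤ γ₂ → γ ≠ v.im →
      ∫ x in a..b, H (x + γ * I) / (x + γ * I - v) = (∫ x in a..b, dslope H v (x + γ * I)) +
        H v * ∫ x in a..b, ((x : ℂ) + (γ * I - v))⁻¹ := by
    intro γ a b g1 g2 g3
    have c1 : Continuous fun x : ℝ => H v * ((x : ℂ) + (γ * I - v))⁻¹ :=
      continuous_const.mul (Continuous.inv₀ (by fun_prop) fun x => by
        rw [← add_sub_assoc]
        exact hne γ x g3)
    rw [← intervalIntegral.integral_const_mul, ← intervalIntegral.integral_add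
      ((line_cont g1 g2 hG).intervalIntegrable _ _) (c1.intervalIntegrable _ _)]
    refine intervalIntegral.integral_congr fun x _ => ?_
    have := hne γ x g3
    rw [dslope_of_ne _ (sub_ne_zero.mp this), slope_def_field, ← add_sub_assoc]
    field_simp
    ring
  have h4 := (sym_tendsto (hint γ₁ le_rfl hγ h₁.ne) t).sub (sym_tendsto (hint γ₂ hγ le_rfl h₂.ne') t)
  rw [tendsto_nhds_unique h4 (h3.congr fun X => by
    rw [split γ₁ _ _ le_rfl hγ h₁.ne, split γ₂ _ _ hγ le_rfl h₂.ne']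
    ring)]
  ring

theorem ker : KerStmt := by
  intro ξ Δ hΔ
  have hD : (I * Δ : ℂ) ≠ 0 := mul_ne_zero I_ne_zero (ofReal_ne_zero.mpr hΔ.ne')
  have he : Differentiable ℂ fun z : ℂ => exp (I * Δ * z) := by fun_prop
  have hs : Differentiable ℂ (dslope (fun z : ℂ => exp (I * Δ * z)) 0) :=
    differentiableOn_univ.mp ((differentiableOn_dslope univ_mem).mpr he.differentiableOn)
  set k : ℂ → ℂ := fun z => exp (-z ^ 2) * exp (I * ξ * z) *
    (dslope (fun z : ℂ => exp (I * Δ * z)) 0 z / (I * Δ)) with hk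
  have k0 : k 0 = 1 := by
    have hd : HasDerivAt (fun z : ℂ => exp (I * Δ * z)) (exp (I * Δ * 0) * (I * Δ * 1)) 0 :=
      ((hasDerivAt_id (0 : ℂ)).const_mul (I * Δ)).cexp
    simp only [hk, dslope_same, hd.deriv]
    simp only [mul_zero, exp_zero, mul_one, one_mul, ne_eq, OfNat.ofNat_ne_zero,
      not_false_eq_true, zero_pow, neg_zero]
    exact div_self hD
  have kn : ∀ z : ℂ, z ≠ 0 → ‖k z‖ = Real.exp (z.im ^ 2 - z.re ^ 2) * (Real.exp (-ξ * z.im) *
      (‖exp (I * Δ * z) - 1‖ / (Δ * ‖z‖))) := by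
    intro z hz
    simp only [hk]
    rw [dslope_of_ne _ hz, slope_def_field, norm_mul, norm_mul, norm_div, norm_div, norm_exp,
      norm_exp, mul_zero, exp_zero, sub_zero, norm_mul, norm_I, norm_real, Real.norm_eq_abs,
      abs_of_pos hΔ]
    have e1 : (-z ^ 2).re = z.im ^ 2 - z.re ^ 2 := by simp [sq]
    have e2 : (I * ξ * z).re = -ξ * z.im := by simp
    rw [e1, e2, one_mul, div_div, mul_comm ‖z‖ Δ, mul_assoc]
  have b2 : ∀ z : ℂ, z ≠ 0 → Real.exp (-ξ * z.im) * (‖exp (I * Δ * z) - 1‖ / (Δ * ‖z‖)) ≤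
      2 * max (Real.exp (-ξ * z.im)) (Real.exp (-(ξ + Δ) * z.im)) / (Δ * ‖z‖) := by
    intro z hz
    rw [← mul_div_assoc]
    refine div_le_div_of_nonneg_right ?_ (by positivity)
    have a1 : ‖exp (I * Δ * z) - 1‖ ≤ Real.exp (-Δ * z.im) + 1 := by
      refine (norm_sub_le _ _).trans (le_of_eq ?_)
      rw [norm_exp, norm_one]
      simp
    have a2 : Real.exp (-ξ * z.im) * Real.exp (-Δ * z.im) = Real.exp (-(ξ + Δ) * z.im) := by
      rw [← Real.exp_add]
      congr 1
      ring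
    have a3 := mul_le_mul_of_nonneg_left a1 (Real.exp_pos (-ξ * z.im)).le
    have a4 := le_max_left (Real.exp (-ξ * z.im)) (Real.exp (-(ξ + Δ) * z.im))
    have a5 := le_max_right (Real.exp (-ξ * z.im)) (Real.exp (-(ξ + Δ) * z.im))
    rw [mul_add, a2] at a3
    linarith
  have b1 : ∀ z : ℂ, z ≠ 0 → Real.exp (-ξ * z.im) * (‖exp (I * Δ * z) - 1‖ / (Δ * ‖z‖)) ≤
      2 * max (Real.exp (-ξ * z.im)) (Real.exp (-(ξ + Δ) * z.im)) := by
    intro z hz
    have hp : 0 < Δ * ‖z‖ := mul_pos hΔ (norm_pos_iff.mpr hz)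
    have a4 := le_max_left (Real.exp (-ξ * z.im)) (Real.exp (-(ξ + Δ) * z.im))
    have a0 := Real.exp_pos (-ξ * z.im)
    rcases le_total (Δ * ‖z‖) 1 with h | h
    · have e : ‖I * Δ * z‖ = Δ * ‖z‖ := by
        rw [norm_mul, norm_mul, norm_I, norm_real, Real.norm_eq_abs, abs_of_pos hΔ, one_mul]
      have a1 := norm_exp_sub_one_le (x := I * Δ * z) (e ▸ h)
      rw [e] at a1
      have a2 : ‖exp (I * Δ * z) - 1‖ / (Δ * ‖z‖) ≤ 2 := (div_le_iff₀ hp).mpr a1
      nlinarith
    · exact (b2 z hz).trans (div_le_self (by linarith) h)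
  refine ⟨k, by simp only [hk]; fun_prop, k0, fun z => ?_, fun z => ?_⟩
  · rcases eq_or_ne z 0 with rfl | hz
    · rw [k0]
      simp
    · rw [kn z hz]
      have := mul_le_mul_of_nonneg_left (b1 z hz) (Real.exp_pos (z.im ^ 2 - z.re ^ 2)).le
      linarith
  · rcases eq_or_ne z 0 with rfl | hz
    · simp [km]
    · have hp : 0 < ‖z‖ := norm_pos_iff.mpr hz
      rw [norm_div, kn z hz, km, sub_eq_add_neg (z.im ^ 2), Real.exp_add]
      set m := max (Real.exp (-ξ * z.im)) (Real.exp (-(ξ + Δ) * z.im))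
      set q := Real.exp (-ξ * z.im) * (‖exp (I * Δ * z) - 1‖ / (Δ * ‖z‖))
      have c1 : q / ‖z‖ ≤ 2 * m * min (1 / ‖z‖) (1 / (Δ * ‖z‖ ^ 2)) := by
        rcases le_total (1 / ‖z‖) (1 / (Δ * ‖z‖ ^ 2)) with h | h
        · rw [min_eq_left h, mul_one_div]
          exact div_le_div_of_nonneg_right (b1 z hz) hp.le
        · rw [min_eq_right h]
          refine (div_le_div_of_nonneg_right (b2 z hz) hp.le).trans (le_of_eq ?_)
          rw [mul_one_div, div_div, sq, mul_assoc]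
      have c2 := mul_le_mul_of_nonneg_left c1
        (mul_pos (Real.exp_pos (z.im ^ 2)) (Real.exp_pos (-z.re ^ 2))).le
      rw [mul_div_assoc]
      linarith

theorem tail_int {Δ Y : ℝ} (hΔ : 0 < Δ) (hY : 0 < Y) :
    ∫⁻ u in Set.Ioi Y, ENNReal.ofReal (2 / (u * (1 + Δ * u))) =
      ENNReal.ofReal (2 * Real.log (1 + 1 / (Δ * Y))) := by
  have hd : ∀ u ∈ Set.Ici Y, HasDerivAt (fun u : ℝ => -2 * Real.log (1 + Δ⁻¹ * u⁻¹))
      (2 / (u * (1 + Δ * u))) u := by
    intro u hu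
    have hu0 : 0 < u := hY.trans_le hu
    have h1 := ((((hasDerivAt_inv hu0.ne').const_mul Δ⁻¹).const_add 1).log
      (by positivity)).const_mul (-2)
    refine h1.congr_deriv ?_
    field_simp
    ring
  have hp : ∀ u ∈ Set.Ioi Y, 0 ≤ 2 / (u * (1 + Δ * u)) := fun u hu => by
    have hu0 : 0 < u := hY.trans hu
    positivity
  have hl : Tendsto (fun u : ℝ => -2 * Real.log (1 + Δ⁻¹ * u⁻¹)) atTop (𝓝 0) := by
    have h1 : Tendsto (fun u : ℝ => 1 + Δ⁻¹ * u⁻¹) atTop (𝓝 (1 + Δ⁻¹ * 0)) :=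
      (tendsto_inv_atTop_zero.const_mul _).const_add 1
    rw [mul_zero, add_zero] at h1
    simpa using (h1.log one_ne_zero).const_mul (-2)
  rw [← ofReal_integral_eq_lintegral_ofReal (integrableOn_Ioi_deriv_of_nonneg' hd hp hl)
    ((ae_restrict_iff' measurableSet_Ioi).mpr (Eventually.of_forall hp)),
    integral_Ioi_of_hasDerivAt_of_nonneg' hd hp hl, one_div, mul_inv]
  congr 1
  ring

theorem kmInt : KmStmt := by
  intro Δ y x₀ hΔ hy
  have hY : 0 < |y| := abs_pos.mpr hy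
  set A : ℝ → ENNReal := (Set.Icc (-|y|) |y|).indicator fun _ => ENNReal.ofReal (1 / |y|) with hA
  set B : ℝ → ENNReal := (Set.Ioi |y|).indicator fun u =>
    ENNReal.ofReal (2 / (u * (1 + Δ * u))) with hB
  have mA : Measurable A := measurable_const.indicator measurableSet_Icc
  have mB : Measurable B := Measurable.indicator (by fun_prop) measurableSet_Ioi
  have far : ∀ (z : ℂ) (u : ℝ), 0 < u → u ≤ ‖z‖ → km Δ z ≤ 2 / (u * (1 + Δ * u)) := by
    intro z u hu hz
    have hp : 0 < ‖z‖ := hu.trans_le hz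
    have e1 : km Δ z ≤ min (1 / ‖z‖) (1 / (Δ * ‖z‖ ^ 2)) :=
      mul_le_of_le_one_left (by positivity)
        (Real.exp_le_one_iff.mpr (neg_nonpos.mpr (sq_nonneg _)))
    refine e1.trans ?_
    rcases le_total (Δ * u) 1 with h | h
    · refine (min_le_left _ _).trans ?_
      rw [div_le_div_iff₀ hp (by positivity)]
      nlinarith
    · refine (min_le_right _ _).trans ?_
      rw [div_le_div_iff₀ (by positivity) (by positivity)]
      have : u ^ 2 ≤ ‖z‖ ^ 2 := by gcongr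
      nlinarith
  have hle : ∀ x : ℝ, ENNReal.ofReal (km Δ (x₀ - (x + y * I))) ≤
      A (x - x₀) + B (x - x₀) + B (-(x - x₀)) := by
    intro x
    have r1 : |x - x₀| ≤ ‖(x₀ : ℂ) - (x + y * I)‖ := by
      rw [abs_sub_comm]
      simpa using abs_re_le_norm ((x₀ : ℂ) - (x + y * I))
    have r2 : |y| ≤ ‖(x₀ : ℂ) - (x + y * I)‖ := by
      simpa using abs_im_le_norm ((x₀ : ℂ) - (x + y * I))
    by_cases h1 : |y| < x - x₀
    · refine le_add_right (le_add_left ?_)
      rw [hB, Set.indicator_of_mem (Set.mem_Ioi.mpr h1)]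
      exact ENNReal.ofReal_le_ofReal (far _ _ (hY.trans h1) ((le_abs_self _).trans r1))
    by_cases h2 : |y| < -(x - x₀)
    · refine le_add_left ?_
      rw [hB, Set.indicator_of_mem (Set.mem_Ioi.mpr h2)]
      exact ENNReal.ofReal_le_ofReal (far _ _ (hY.trans h2) ((neg_le_abs _).trans r1))
    · refine le_add_right (le_add_right ?_)
      rw [hA, Set.indicator_of_mem (Set.mem_Icc.mpr ⟨by linarith, by linarith⟩)]
      refine ENNReal.ofReal_le_ofReal ?_
      have e1 : km Δ (x₀ - (x + y * I)) ≤ min (1 / ‖(x₀ : ℂ) - (x + y * I)‖)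
          (1 / (Δ * ‖(x₀ : ℂ) - (x + y * I)‖ ^ 2)) :=
        mul_le_of_le_one_left (by positivity)
          (Real.exp_le_one_iff.mpr (neg_nonpos.mpr (sq_nonneg _)))
      exact e1.trans ((min_le_left _ _).trans (one_div_le_one_div_of_le hY r2))
  have iA : ∫⁻ u, A u = ENNReal.ofReal 2 := by
    rw [hA, lintegral_indicator_const measurableSet_Icc, Real.volume_Icc,
      ← ENNReal.ofReal_mul (by positivity)]
    congr 1
    field_simp
    ring
  have iB : ∫⁻ u, B u = ENNReal.ofReal (2 * Real.log (1 + 1 / (Δ * |y|))) := by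
    rw [hB, lintegral_indicator measurableSet_Ioi, tail_int hΔ hY]
  have hL : 0 ≤ Real.log (1 + 1 / (Δ * |y|)) :=
    Real.log_nonneg (le_add_of_nonneg_right (by positivity))
  refine (lintegral_mono hle).trans ?_
  rw [lintegral_sub_right_eq_self (fun u => A u + B u + B (-u)) x₀,
    lintegral_add_left (f := fun u => A u + B u) (mA.add mB), lintegral_add_left mA, lintegral_neg_eq_self B, iA, iB,
    ← ENNReal.ofReal_add (by positivity) (by positivity),
    ← ENNReal.ofReal_add (by positivity) (by positivity)]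
  exact ENNReal.ofReal_le_ofReal (by linarith)

end Pool.Agent.MP_ca0a54_nt.H91
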